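import Mathlib
import Pool.Agent.H133.ZM.Stm

set_option autoImplicit false

namespace Pool.Agent.H284.ZM

open Finset Pool.Agent.H133.ZM

/-- covered -/
def Cov {V : Type} (M : Finset (Sym2 V)) (v : V) : Prop := ∃ e ∈ M, v ∈ e

lemma edge_uniq {V : Type} {G : SimpleGraph V} {M : Finset (Sym2 V)} (hM : IsM G M)
    {e f : Sym2 V} (he : e ∈ M) (hf : f ∈ M) {v : V} (hve : v ∈ e) (hvf : v ∈ f) : e = f := by
  by_contra hne
  exact hM.2 e he f hf hne v hve hvf

lemma card_cov {V : Type} [Fintype V] [DecidableEq V] {G : SimpleGraph V}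
    {M : Finset (Sym2 V)} (hM : IsM G M) [DecidablePred (Cov M)] :
    (univ.filter (Cov M)).card = 2 * M.card := by
  classical
  have h1 : univ.filter (Cov M) = M.biUnion (fun e => univ.filter (fun v => v ∈ e)) := by
    ext v
    simp only [mem_filter, mem_univ, true_and, mem_biUnion]
    rfl
  rw [h1, card_biUnion]
  · rw [Finset.sum_congr rfl (g := fun _ => 2)]
    · rw [sum_const, smul_eq_mul, mul_comm]
    · intro e he
      have heG := hM.1 e he
      induction e with
      | h a b =>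
        rw [SimpleGraph.mem_edgeSet] at heG
        have : (univ.filter (fun v => v ∈ s(a, b))) = {a, b} := by
          ext v
          simp
        rw [this, card_pair heG.ne]
  · intro e he f hf hne
    show Disjoint (univ.filter (fun v => v ∈ e)) (univ.filter (fun v => v ∈ f))
    rw [Finset.disjoint_left]
    intro v hv hv'
    simp only [mem_filter, mem_univ, true_and] at hv hv'
    exact hM.2 e he f hf hne v hv hv'

lemma card_le {V : Type} [Fintype V] [DecidableEq V] {G : SimpleGraph V} {L : ℕ}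
    (hV : Fintype.card V = 2 * L + 1) {M : Finset (Sym2 V)} (hM : IsM G M) : M.card ≤ L := by
  classical
  have h := card_cov hM
  have h2 : (univ.filter (Cov M)).card ≤ Fintype.card V := by
    rw [← card_univ]
    exact card_le_card (filter_subset _ _)
  omega

lemma miss {V : Type} [Fintype V] [DecidableEq V] {G : SimpleGraph V} {L : ℕ}
    (hV : Fintype.card V = 2 * L + 1) {M : Finset (Sym2 V)} (hM : IsM G M) (hL : M.card = L) :
    ∃ v, ¬ Cov M v ∧ ∀ w, ¬ Cov M w → w = v := by
  classical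
  have h := card_cov hM
  have h2 := card_filter_add_card_filter_not (s := (univ : Finset V)) (Cov M)
  rw [h, card_univ, hV, hL] at h2
  have h3 : (univ.filter (fun v => ¬ Cov M v)).card = 1 := by omega
  obtain ⟨v, hv⟩ := card_eq_one.mp h3
  refine ⟨v, ?_, ?_⟩
  · have : v ∈ univ.filter (fun v => ¬ Cov M v) := by rw [hv]; exact mem_singleton_self v
    exact (mem_filter.mp this).2
  · intro w hw
    have : w ∈ univ.filter (fun v => ¬ Cov M v) := mem_filter.mpr ⟨mem_univ _, hw⟩
    rw [hv] at this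
    exact mem_singleton.mp this

/-- the switched matching -/
def sw {V : Type} [DecidableEq V] (M : Finset (Sym2 V)) (v x y : V) : Finset (Sym2 V) :=
  insert s(v, x) (M.erase s(x, y))

section
variable {V : Type} [DecidableEq V] {G : SimpleGraph V} {M : Finset (Sym2 V)} {v x y : V}

omit [DecidableEq V] in
lemma sw_not (hv : ¬ Cov M v) : s(v, x) ∉ M := by
  intro h
  exact hv ⟨_, h, by simp⟩

lemma sw_isM (hM : IsM G M) (hv : ¬ Cov M v) (hvx : G.Adj v x) (hxy : s(x, y) ∈ M) :
    IsM G (sw M v x y) := by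
  have key : ∀ f ∈ M.erase s(x, y), ∀ w ∈ s(v, x), w ∉ f := by
    intro f hf w hw hwf
    rw [mem_erase] at hf
    rw [Sym2.mem_iff] at hw
    rcases hw with rfl | rfl
    · exact hv ⟨f, hf.2, hwf⟩
    · exact hf.1 (edge_uniq hM hf.2 hxy hwf (by simp))
  refine ⟨?_, ?_⟩
  · intro e he
    unfold sw at he
    rw [mem_insert] at he
    rcases he with rfl | he
    · exact hvx
    · exact hM.1 e (mem_erase.mp he).2
  · intro e he f hf hne w hwe hwf
    unfold sw at he hf
    rw [mem_insert] at he hf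
    rcases he with rfl | he
    · rcases hf with rfl | hf
      · exact hne rfl
      · exact key f hf w hwe hwf
    · rcases hf with rfl | hf
      · exact key e he w hwf hwe
      · exact hM.2 e (mem_erase.mp he).2 f (mem_erase.mp hf).2 hne w hwe hwf

lemma sw_card (hv : ¬ Cov M v) (hxy : s(x, y) ∈ M) :
    (sw M v x y).card = M.card := by
  unfold sw
  rw [card_insert_of_notMem, card_erase_of_mem hxy]
  · have : 0 < M.card := card_pos.mpr ⟨_, hxy⟩
    omega
  · intro h
    exact sw_not hv (mem_erase.mp h).2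

lemma sw_sdiff1 : (M \ sw M v x y).card ≤ 1 := by
  apply le_trans (card_le_card (t := {s(x, y)}) _) (by simp)
  intro e he
  rw [mem_sdiff] at he
  unfold sw at he
  rw [mem_insert, mem_erase] at he
  rw [mem_singleton]
  by_contra hne
  exact he.2 (Or.inr ⟨hne, he.1⟩)

lemma sw_sdiff2 : (sw M v x y \ M).card ≤ 1 := by
  apply le_trans (card_le_card (t := {s(v, x)}) _) (by simp)
  intro e he
  rw [mem_sdiff] at he
  unfold sw at he
  rw [mem_insert, mem_erase] at he
  rw [mem_singleton]
  rcases he.1 with h | h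
  · exact h
  · exact absurd h.2 he.2

lemma sw_miss (hM : IsM G M) (hv : ¬ Cov M v) (hxy : s(x, y) ∈ M) :
    ¬ Cov (sw M v x y) y := by
  rintro ⟨e, he, hye⟩
  unfold sw at he
  rw [mem_insert, mem_erase] at he
  rcases he with rfl | he
  · rw [Sym2.mem_iff] at hye
    rcases hye with rfl | rfl
    · exact hv ⟨_, hxy, by simp⟩
    · have := hM.1 _ hxy
      rw [SimpleGraph.mem_edgeSet] at this
      exact this.ne rfl
  · exact he.1 (edge_uniq hM he.2 hxy hye (by simp))

end

/-- pairs with different value -/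
def Pr {V : Type} (G : SimpleGraph V) (L : ℕ) {α : Type} (P : Finset (Sym2 V) → α)
    (M M' : Finset (Sym2 V)) : Prop :=
  IsM G M ∧ IsM G M' ∧ M.card = L ∧ M'.card = L ∧ P M ≠ P M'

theorem t_conn2 : S_conn2 := by
  intro V _ _ G m L α P hV hP hdeg hmis M0 M0' hM0 hM0' hL0 hL0'
  classical
  by_contra hne0
  -- maximal pair
  have hex : ∃ k : ℕ, ∃ M M', Pr G L P M M' ∧ (M ∩ M').card = k :=
    ⟨_, M0, M0', ⟨hM0, hM0', le_antisymm (card_le hV hM0) hL0, le_antisymm (card_le hV hM0') hL0',
      hne0⟩, rfl⟩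
  have hbd : ∀ k : ℕ, (∃ M M', Pr G L P M M' ∧ (M ∩ M').card = k) → k ≤ L := by
    rintro k ⟨M, M', hpr, rfl⟩
    exact le_trans (card_le_card inter_subset_left) hpr.2.2.1.le
  obtain ⟨k, ⟨M, M', hpr, hk⟩, hmax⟩ : ∃ k : ℕ, (∃ M M', Pr G L P M M' ∧ (M ∩ M').card = k) ∧
      ∀ N N', Pr G L P N N' → (N ∩ N').card ≤ k := by
    refine ⟨Nat.findGreatest (fun k => ∃ M M', Pr G L P M M' ∧ (M ∩ M').card = k) L, ?_, ?_⟩
    · obtain ⟨k, hk⟩ := hex
      exact Nat.findGreatest_spec (P := fun k => ∃ M M', Pr G L P M M' ∧ (M ∩ M').card = k)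
        (hbd k hk) hk
    · intro N N' h
      exact Nat.le_findGreatest (hbd _ ⟨N, N', h, rfl⟩) ⟨N, N', h, rfl⟩
  -- invariance of P
  have hPsw : ∀ N, IsM G N → N.card = L → ∀ v x y, ¬ Cov N v → G.Adj v x → s(x, y) ∈ N →
      P N = P (sw N v x y) := by
    intro N hN hNL v x y hv hvx hxy
    exact hP N _ hN (sw_isM hN hv hvx hxy) hNL.ge (by rw [sw_card hv hxy]; exact hNL.ge)
      sw_sdiff1 sw_sdiff2
  -- (1)
  have h1 : ∀ N N', Pr G L P N N' → (N ∩ N').card = k → ∀ v, ¬ Cov N v → ¬ Cov N' v := by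
    rintro N N' hN hNk v hv ⟨e', he', hve'⟩
    obtain ⟨w, rfl⟩ := Sym2.mem_iff_exists.mp hve'
    have hvw : G.Adj v w := hN.2.1.1 _ he'
    obtain ⟨v0, hv0, hv0'⟩ := miss hV hN.1 hN.2.2.1
    have hcw : Cov N w := by
      by_contra hcon
      have := hv0' w hcon
      have h2 := hv0' v hv
      exact hvw.ne (h2.trans this.symm)
    obtain ⟨f, hf, hwf⟩ := hcw
    obtain ⟨a, rfl⟩ := Sym2.mem_iff_exists.mp hwf
    have hfN' : s(w, a) ∉ N' := by
      intro h
      have := edge_uniq hN.2.1 he' h (v := w) (by simp) (by simp)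
      apply hv
      exact ⟨_, hf, by rw [← this]; simp⟩
    have hpr1 : Pr G L P (sw N v w a) N' :=
      ⟨sw_isM hN.1 hv hvw hf, hN.2.1, by rw [sw_card hv hf]; exact hN.2.2.1, hN.2.2.2.1,
        by rw [← hPsw N hN.1 hN.2.2.1 v w a hv hvw hf]; exact hN.2.2.2.2⟩
    have hc := hmax _ _ hpr1
    have hlt : (N ∩ N').card < (sw N v w a ∩ N').card := by
      apply card_lt_card
      rw [Finset.ssubset_iff_of_subset]
      · exact ⟨s(v, w), by unfold sw; simp [he'], by
          rw [mem_inter]; exact fun h => sw_not hv h.1⟩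
      · intro e he
        rw [mem_inter] at he ⊢
        refine ⟨?_, he.2⟩
        unfold sw
        rw [mem_insert, mem_erase]
        right
        refine ⟨?_, he.1⟩
        rintro rfl
        exact hfN' he.2
    omega
  -- (3)
  have h3 : ∀ N N', Pr G L P N N' → (N ∩ N').card = k → ∀ v, ¬ Cov N v → ∀ u, G.Adj v u →
      ∀ f ∈ N, u ∈ f → f ∈ N' := by
    intro N N' hN hNk v hv u hvu f hf huf
    by_contra hfN'
    obtain ⟨a, rfl⟩ := Sym2.mem_iff_exists.mp huf
    have hvN' := h1 N N' hN hNk v hv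
    have hpr1 : Pr G L P (sw N v u a) N' :=
      ⟨sw_isM hN.1 hv hvu hf, hN.2.1, by rw [sw_card hv hf]; exact hN.2.2.1, hN.2.2.2.1,
        by rw [← hPsw N hN.1 hN.2.2.1 v u a hv hvu hf]; exact hN.2.2.2.2⟩
    have hc := hmax _ _ hpr1
    have hle : (N ∩ N').card ≤ (sw N v u a ∩ N').card := by
      apply card_le_card
      intro e he
      rw [mem_inter] at he ⊢
      refine ⟨?_, he.2⟩
      unfold sw
      rw [mem_insert, mem_erase]
      right
      refine ⟨?_, he.1⟩
      rintro rfl
      exact hfN' he.2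
    have hk1 : (sw N v u a ∩ N').card = k := by omega
    have ha := h1 _ _ hpr1 hk1 a (sw_miss hN.1 hv hf)
    obtain ⟨v0, hv0, hv0'⟩ := miss hV hN.2.1 hN.2.2.2.1
    have e1 := hv0' a ha
    have e2 := hv0' v hvN'
    apply hv
    exact ⟨_, hf, by rw [e2, ← e1]; simp⟩
  -- the missed vertex
  obtain ⟨v, hv, hvu⟩ := miss hV hpr.1 hpr.2.2.1
  have hv' : ¬ Cov M' v := h1 M M' hpr hk v hv
  have hvu' : ∀ w, w ≠ v → Cov M' w := by
    intro w hw
    by_contra hcon
    obtain ⟨v0, hv0, hv0'⟩ := miss hV hpr.2.1 hpr.2.2.2.1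
    exact hw ((hv0' w hcon).trans (hv0' v hv').symm)
  have hcovM : ∀ w, w ≠ v → Cov M w := by
    intro w hw
    by_contra hcon
    exact hw (hvu w hcon)
  -- the set U
  have hU : ∃ U : Finset V, U.card = 4 ∧ ∀ u ∈ U, ∃ f ∈ M, u ∈ f ∧ f ∉ M' := by
    have hne : M ≠ M' := by
      rintro rfl
      exact hpr.2.2.2.2 rfl
    have : ∃ e ∈ M, e ∉ M' := by
      by_contra hcon
      push Not at hcon
      have hsub : M ⊆ M' := hcon
      exact hne (eq_of_subset_of_card_le hsub (by rw [hpr.2.2.1, hpr.2.2.2.1]))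
    obtain ⟨e, he, heM'⟩ := this
    induction e with
    | h u1 u2 =>
      have h12 : u1 ≠ u2 := by
        have := hpr.1.1 _ he
        rw [SimpleGraph.mem_edgeSet] at this
        exact this.ne
      have hu1 : u1 ≠ v := by rintro rfl; exact hv ⟨_, he, by simp⟩
      have hu2 : u2 ≠ v := by rintro rfl; exact hv ⟨_, he, by simp⟩
      obtain ⟨e1, he1, hue1⟩ := hvu' u1 hu1
      obtain ⟨e2, he2, hue2⟩ := hvu' u2 hu2
      obtain ⟨u3, rfl⟩ := Sym2.mem_iff_exists.mp hue1
      obtain ⟨u4, rfl⟩ := Sym2.mem_iff_exists.mp hue2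
      have h13 : u1 ≠ u3 := by
        have := hpr.2.1.1 _ he1
        rw [SimpleGraph.mem_edgeSet] at this
        exact this.ne
      have h24 : u2 ≠ u4 := by
        have := hpr.2.1.1 _ he2
        rw [SimpleGraph.mem_edgeSet] at this
        exact this.ne
      have h23 : u2 ≠ u3 := by
        rintro rfl
        exact heM' he1
      have h14 : u1 ≠ u4 := by
        rintro rfl
        rw [Sym2.eq_swap] at he2
        exact heM' he2
      have h34 : u3 ≠ u4 := by
        rintro rfl
        have := edge_uniq hpr.2.1 he1 he2 (v := u3) (by simp) (by simp)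
        rw [Sym2.eq_iff] at this
        rcases this with h | h
        · exact h12 h.1
        · exact h13 h.1
      have hn1 : s(u1, u3) ∉ M := by
        intro h
        have := edge_uniq hpr.1 he h (v := u1) (by simp) (by simp)
        exact heM' (this ▸ he1)
      have hn2 : s(u2, u4) ∉ M := by
        intro h
        have := edge_uniq hpr.1 he h (v := u2) (by simp) (by simp)
        exact heM' (this ▸ he2)
      have hu3 : u3 ≠ v := by rintro rfl; exact hv' ⟨_, he1, by simp⟩
      have hu4 : u4 ≠ v := by rintro rfl; exact hv' ⟨_, he2, by simp⟩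
      refine ⟨{u1, u2, u3, u4}, ?_, ?_⟩
      · rw [card_insert_of_notMem, card_insert_of_notMem, card_insert_of_notMem, card_singleton]
        · simpa using h34
        · simp only [mem_insert, mem_singleton, not_or]
          exact ⟨h23, h24⟩
        · simp only [mem_insert, mem_singleton, not_or]
          exact ⟨h12, h13, h14⟩
      · intro u hu
        simp only [mem_insert, mem_singleton] at hu
        rcases hu with rfl | rfl | rfl | rfl
        · exact ⟨_, he, by simp, heM'⟩
        · exact ⟨_, he, by simp, heM'⟩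
        · obtain ⟨g, hg, hug⟩ := hcovM _ hu3
          refine ⟨g, hg, hug, ?_⟩
          intro hgM'
          have := edge_uniq hpr.2.1 he1 hgM' (by simp) hug
          exact hn1 (this ▸ hg)
        · obtain ⟨g, hg, hug⟩ := hcovM _ hu4
          refine ⟨g, hg, hug, ?_⟩
          intro hgM'
          have := edge_uniq hpr.2.1 he2 hgM' (by simp) hug
          exact hn2 (this ▸ hg)
  obtain ⟨U, hUc, hUp⟩ := hU
  -- partners
  have hpart : ∀ x, G.Adj v x → ∃ y, s(x, y) ∈ M ∧ s(x, y) ∈ M' := by
    intro x hvx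
    obtain ⟨f, hf, hxf⟩ := hcovM x hvx.ne'
    have hf' := h3 M M' hpr hk v hv x hvx f hf hxf
    obtain ⟨y, rfl⟩ := Sym2.mem_iff_exists.mp hxf
    exact ⟨y, hf, hf'⟩
  choose! y hy using hpart
  -- (3) for v
  have hvU : ∀ u ∈ U, ¬ G.Adj v u := by
    intro u hu hadj
    obtain ⟨f, hf, huf, hfM'⟩ := hUp u hu
    exact hfM' (h3 M M' hpr hk v hv u hadj f hf huf)
  have hvnU : v ∉ U := by
    intro h
    obtain ⟨f, hf, huf, _⟩ := hUp v h
    exact hv ⟨f, hf, huf⟩
  -- (4)
  have hyU : ∀ x, G.Adj v x → ∀ u ∈ U, ¬ G.Adj (y x) u := by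
    intro x hvx u hu hadj
    obtain ⟨hyM, hyM'⟩ := hy x hvx
    obtain ⟨g, hg, hug, hgM'⟩ := hUp u hu
    have hgf : g ≠ s(x, y x) := by
      rintro rfl
      exact hgM' hyM'
    have hpr1 : Pr G L P (sw M v x (y x)) (sw M' v x (y x)) :=
      ⟨sw_isM hpr.1 hv hvx hyM, sw_isM hpr.2.1 hv' hvx hyM', by rw [sw_card hv hyM]; exact hpr.2.2.1,
        by rw [sw_card hv' hyM']; exact hpr.2.2.2.1,
        by rw [← hPsw M hpr.1 hpr.2.2.1 v x _ hv hvx hyM,
             ← hPsw M' hpr.2.1 hpr.2.2.2.1 v x _ hv' hvx hyM']; exact hpr.2.2.2.2⟩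
    have hint : sw M v x (y x) ∩ sw M' v x (y x) = sw (M ∩ M') v x (y x) := by
      ext e
      unfold sw
      simp only [mem_inter, mem_insert, mem_erase]
      tauto
    have hvI : ¬ Cov (M ∩ M') v := by
      rintro ⟨e, he, hve⟩
      exact hv ⟨e, (mem_inter.mp he).1, hve⟩
    have hk1 : (sw M v x (y x) ∩ sw M' v x (y x)).card = k := by
      rw [hint, sw_card hvI (mem_inter.mpr ⟨hyM, hyM'⟩)]
      exact hk
    have hg1 : g ∈ sw M v x (y x) := by
      unfold sw
      rw [mem_insert, mem_erase]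
      exact Or.inr ⟨hgf, hg⟩
    have hres := h3 _ _ hpr1 hk1 (y x) (sw_miss hpr.1 hv hyM) u hadj g hg1 hug
    unfold sw at hres
    rw [mem_insert, mem_erase] at hres
    rcases hres with h | h
    · apply hv
      exact ⟨g, hg, by rw [h]; simp⟩
    · exact hgM' h.2
  have hynU : ∀ x, G.Adj v x → y x ∉ U := by
    intro x hvx h
    obtain ⟨hyM, hyM'⟩ := hy x hvx
    obtain ⟨g, hg, hug, hgM'⟩ := hUp _ h
    have := edge_uniq hpr.1 hg hyM hug (by simp)
    exact hgM' (this ▸ hyM')
  -- the set Y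
  set N : Finset V := univ.filter (fun x => G.Adj v x) with hN
  have hNc : m ≤ N.card := by
    have h := hdeg v
    unfold dg at h
    have : G.neighborSet v = (N : Set V) := by
      ext x
      simp [hN]
    rw [this, Set.ncard_coe_finset] at h
    exact h
  set Y : Finset V := insert v (N.image y) with hY
  have hinj : Set.InjOn y N := by
    intro x hx x' hx' hxx
    simp only [hN, coe_filter, mem_univ, true_and] at hx hx'
    have hx1 : G.Adj v x := hx
    have hx2 : G.Adj v x' := hx'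
    obtain ⟨h1M, _⟩ := hy x hx1
    obtain ⟨h2M, _⟩ := hy x' hx2
    have := edge_uniq hpr.1 h1M h2M (v := y x) (by simp) (by rw [hxx]; simp)
    rw [Sym2.eq_iff] at this
    rcases this with h | h
    · exact h.1
    · have h4 : G.Adj x (y x) := hpr.1.1 _ h1M
      exact absurd (h.1.trans hxx.symm) h4.ne
  have hYc : m + 1 ≤ Y.card := by
    rw [hY, card_insert_of_notMem, card_image_of_injOn hinj]
    · omega
    · intro h
      rw [mem_image] at h
      obtain ⟨x, hx, hxv⟩ := h
      have hx1 : G.Adj v x := (mem_filter.mp hx).2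
      obtain ⟨h1M, _⟩ := hy x hx1
      exact hv ⟨_, h1M, by rw [hxv]; simp⟩
  have hYU : ∀ z ∈ Y, ∀ u ∈ U, z ∉ U ∧ ¬ G.Adj z u := by
    intro z hz u hu
    rw [hY, mem_insert, mem_image] at hz
    rcases hz with rfl | ⟨x, hx, rfl⟩
    · exact ⟨hvnU, hvU u hu⟩
    · have hx1 : G.Adj v x := (mem_filter.mp hx).2
      exact ⟨hynU x hx1, hyU x hx1 u hu⟩
  have hfin : (Y ×ˢ U).card ≤ mis G := by
    unfold mis
    have hci : ((Y ×ˢ U).image (fun p : V × V => s(p.1, p.2))).card = (Y ×ˢ U).card := by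
      apply card_image_of_injOn
      rintro ⟨z, u⟩ h ⟨z', u'⟩ h' heq
      simp only [coe_product, Set.mem_prod, mem_coe] at h h'
      simp only at heq
      rw [Sym2.eq_iff] at heq
      rcases heq with h5 | h5
      · exact Prod.ext h5.1 h5.2
      · exfalso
        have := (hYU z h.1 u h.2).1
        apply this
        rw [h5.1]
        exact h'.2
    rw [← hci, ← Set.ncard_coe_finset]
    apply Set.ncard_le_ncard _ (Set.toFinite _)
    intro e he
    rw [mem_coe, mem_image] at he
    obtain ⟨⟨z, u⟩, hp, rfl⟩ := he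
    rw [mem_product] at hp
    have h6 := hYU z hp.1 u hp.2
    show (Gᶜ).Adj z u
    rw [SimpleGraph.compl_adj]
    exact ⟨fun h => h6.1 (h ▸ hp.2), h6.2⟩
  rw [card_product, hUc] at hfin
  nlinarith [hfin, hYc, hmis]

end Pool.Agent.H284.ZM
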